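import Pool.Agent.Q234.GC.Potential

/-!
# Eigenvalue sums in one dimension with the semiclassical constant (MP_cfe56d_mp)

Let `V` be a continuous function on the line and let `y₁, y₂` be solutions of `y'' + V y = 0` with
Wronskian one.  For all orthonormal `u₁, …, u_N` supported in `(a, b)` and all occupation numbers
in `[0, 1]` the energy `Σ l_n ∫ (|u_n'|² - V |u_n|²)` is at least
`- (2/(3π)) ∫_a^b (y₁² + y₂²)⁻³`: the dual form of the kinetic energy inequality, for every
potential, with the semiclassical constant `2/(3π)` and no loss.  For constant `V` this is the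
inequality of Berezin, Li and Yau.

Proof: `q = (y₁² + y₂²)⁻¹` solves the Ermakov-Pinney equation; in the variable `t = ∫ q` the
functions `h_n = √q u_n` have Fourier transforms with `Σ |ĥ_n(ξ)|² ≤ ∫ q³` at every frequency, by
Bessel's inequality in the variable `x`.
-/

set_option autoImplicit false

open MeasureTheory

namespace Pool.Agent.Results.MP_cfe56d_mp.EigenvalueSums

/-- `N` orthonormal functions of class `C¹` with compact support on the line. -/
def IsSystem (N : ℕ) (u : Fin N → ℝ → ℂ) : Prop :=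
  (∀ n, ContDiff ℝ 1 (u n) ∧ HasCompactSupport (u n)) ∧
    ∀ n m, ∫ x, star (u n x) * u m x = if n = m then (1 : ℂ) else 0

/-- **Theorem.** The Schrödinger energy of every orthonormal system supported in `(a, b)`, for every
continuous potential, is bounded below with the semiclassical constant. -/
theorem result :
    ∀ (V y₁ y₂ z₁ z₂ : ℝ → ℝ), Continuous V →
      (∀ x, HasDerivAt y₁ (z₁ x) x) → (∀ x, HasDerivAt y₂ (z₂ x) x) →
      (∀ x, HasDerivAt z₁ (-(V x * y₁ x)) x) → (∀ x, HasDerivAt z₂ (-(V x * y₂ x)) x) →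
      (∀ x, y₁ x * z₂ x - z₁ x * y₂ x = 1) →
      ∀ (a b : ℝ), a ≤ b → ∀ (N : ℕ) (l : Fin N → ℝ) (u : Fin N → ℝ → ℂ),
        (∀ n, 0 ≤ l n ∧ l n ≤ 1) → IsSystem N u → (∀ n x, x ∉ Set.Ioo a b → u n x = 0) →
        -(2 / (3 * Real.pi)) * (∫ x in a..b, ((y₁ x ^ 2 + y₂ x ^ 2) ^ 3)⁻¹) ≤
          ∑ n, l n * ∫ x, (‖deriv (u n) x‖ ^ 2 - V x * ‖u n x‖ ^ 2) := by
  intro V y₁ y₂ z₁ z₂ hV h1 h2 h1' h2' hW a b hab N l u hl hu hs
  exact Pool.Agent.Q234.GC.potential l (fun n => (hl n).1) (fun n => (hl n).2) u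
    (fun n => (hu.1 n).1) hab hs hu.2 V y₁ y₂ z₁ z₂ hV h1 h2 h1' h2' hW

end Pool.Agent.Results.MP_cfe56d_mp.EigenvalueSums
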