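import Pool.Agent.Q234.GC.Kinetic
import Pool.Agent.Q234.GC.Upper

/-!
# One dimension: the semiclassical constant with a gradient correction and no loss (MP_cfe56d_mp)

For orthonormal `u₁, …, u_N` on the line with occupation numbers in `[0, 1]`, density `ρ` and
kinetic energy `T`: `T ≥ (π²/3) ∫ ρ³ - 3 ∫ ((√ρ)')²`, with the full semiclassical constant
`K₁^cl = π²/3` (without correction the best constant is `π²/4`).  Together with the equidensity
orbitals of Macke, March and Young, and Harriman this bounds the Levy-Lieb kinetic functional of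
every density from both sides: `TF - 3 W ≤ F ≤ (1 - 1/N²) TF + W`.

Proof: in the variable `t = ∫ q`, `q > 0`, the functions `h_n = √q u_n` have Fourier transforms
with `Σ |ĥ_n(ξ)|² ≤ ∫ q³` at every frequency, by Bessel's inequality in the variable `x`.
-/

set_option autoImplicit false

open MeasureTheory

namespace Pool.Agent.Results.MP_cfe56d_mp.GradientCorrection

/-- `N` orthonormal functions of class `C¹` with compact support on the line. -/
def IsSystem (N : ℕ) (u : Fin N → ℝ → ℂ) : Prop :=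
  (∀ n, ContDiff ℝ 1 (u n) ∧ HasCompactSupport (u n)) ∧
    ∀ n m, ∫ x, star (u n x) * u m x = if n = m then (1 : ℂ) else 0

/-- The density `Σ l_n |u_n|²` for occupation numbers `l`. -/
noncomputable def density {N : ℕ} (l : Fin N → ℝ) (u : Fin N → ℝ → ℂ) (x : ℝ) : ℝ :=
  ∑ n, l n * ‖u n x‖ ^ 2

/-- The kinetic energy `Σ l_n ∫ |u_n'|²`. -/
noncomputable def kinetic {N : ℕ} (l : Fin N → ℝ) (u : Fin N → ℝ → ℂ) : ℝ :=
  ∑ n, l n * ∫ x, ‖deriv (u n) x‖ ^ 2

/-- The Thomas-Fermi functional `(π²/3) ∫ ρ³`. -/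
noncomputable def TF (ρ : ℝ → ℝ) : ℝ := Real.pi ^ 2 / 3 * ∫ x, ρ x ^ 3

/-- The von Weizsäcker functional `∫ ((√ρ)')²`. -/
noncomputable def W (ρ : ℝ → ℝ) : ℝ := ∫ x, (deriv (fun x => Real.sqrt (ρ x)) x) ^ 2

/-- The Levy-Lieb kinetic functional: the infimum of the kinetic energy over the systems of `N`
orthonormal functions with density `ρ`. -/
noncomputable def levyLieb (N : ℕ) (ρ : ℝ → ℝ) : ℝ :=
  sInf {T : ℝ | ∃ u : Fin N → ℝ → ℂ, IsSystem N u ∧ (∀ x, density 1 u x = ρ x) ∧ kinetic 1 u = T}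

theorem result :
    -- the lower bound for all systems and occupation numbers
    (∀ (N : ℕ) (l : Fin N → ℝ) (u : Fin N → ℝ → ℂ), (∀ n, 0 ≤ l n ∧ l n ≤ 1) → IsSystem N u →
      TF (density l u) - 3 * W (density l u) ≤ kinetic l u) ∧
    -- the Levy-Lieb functional of every density, from both sides
    (∀ (N : ℕ), 1 ≤ N → ∀ r : ℝ → ℝ, ContDiff ℝ 1 r → HasCompactSupport r → (∀ x, 0 ≤ r x) →
      ∫ x, r x ^ 2 = N →
        TF (fun x => r x ^ 2) - 3 * W (fun x => r x ^ 2) ≤ levyLieb N (fun x => r x ^ 2) ∧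
        levyLieb N (fun x => r x ^ 2) ≤
          (1 - 1 / (N : ℝ) ^ 2) * TF (fun x => r x ^ 2) + W (fun x => r x ^ 2)) := by
  have lower : ∀ (N : ℕ) (l : Fin N → ℝ) (u : Fin N → ℝ → ℂ), (∀ n, 0 ≤ l n ∧ l n ≤ 1) →
      IsSystem N u → TF (density l u) - 3 * W (density l u) ≤ kinetic l u := by
    intro N l u hl hu
    have := Pool.Agent.Q234.GC.kinetic (l := l) (u := u) (fun n => (hl n).1) (fun n => (hl n).2)
      (fun n => (hu.1 n).1) (fun n => (hu.1 n).2) hu.2
    have h2 : TF (density l u) ≤ kinetic l u + 3 * W (density l u) := this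
    linarith
  refine ⟨lower, ?_⟩
  · intro N hN r hr hs hr0 hint
    obtain ⟨u, hu1, hu2, hu3, hu4⟩ := Pool.Agent.Q234.GC.upper N hN r hr hs hint
    have hsys : IsSystem N u := ⟨hu1, hu2⟩
    have hdens : ∀ x, density 1 u x = r x ^ 2 := by
      intro x
      rw [← hu3 x]
      simp [density]
    have hTF : TF (fun x => r x ^ 2) = Real.pi ^ 2 / 3 * ∫ x, r x ^ 6 := by
      unfold TF
      congr 2
      ext x
      ring
    have hW : W (fun x => r x ^ 2) = ∫ x, deriv r x ^ 2 := by
      unfold W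
      have : (fun x => Real.sqrt (r x ^ 2)) = r := funext fun x => Real.sqrt_sq (hr0 x)
      rw [this]
    have hkin : kinetic 1 u = (1 - 1 / (N : ℝ) ^ 2) * TF (fun x => r x ^ 2) + W (fun x => r x ^ 2) := by
      have : kinetic 1 u = ∑ n, ∫ x, ‖deriv (u n) x‖ ^ 2 := by simp [kinetic]
      rw [this, hu4, hTF, hW]
      ring
    constructor
    · apply le_csInf
      · exact ⟨_, u, hsys, hdens, rfl⟩
      · rintro T ⟨w, hw, hwd, rfl⟩
        have h1 := lower N 1 w (fun n => ⟨zero_le_one, le_refl _⟩) hw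
        have h2 : density 1 w = fun x => r x ^ 2 := funext hwd
        rw [h2] at h1
        exact h1
    · rw [← hkin]
      apply csInf_le
      · refine ⟨0, ?_⟩
        rintro T ⟨w, -, -, rfl⟩
        unfold kinetic
        refine Finset.sum_nonneg fun n _ => mul_nonneg zero_le_one (integral_nonneg fun x => by positivity)
      · exact ⟨u, hsys, hdens, rfl⟩

end Pool.Agent.Results.MP_cfe56d_mp.GradientCorrection
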