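import Pool.Agent.Q235.LT.CplxErr

set_option autoImplicit false

open MeasureTheory

namespace Pool.Agent.Results.MP_cfe56d_mp.GradientError

/-- The partial derivative `∂_k u` of a complex function on `ℝ^d`. -/
noncomputable def pder {d : ℕ} (k : Fin d) (u : (Fin d → ℝ) → ℂ) (x : Fin d → ℝ) : ℂ :=
  fderiv ℝ u x (Pi.single k 1)

/-- The semiclassical constant `d / (d + 2) * (2π)² / ω_d ^ (2 / d)`. -/
noncomputable def Kcl (d : ℕ) : ℝ :=
  d / (d + 2) * ((2 * Real.pi) ^ 2 /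
    (volume (Metric.ball (0 : EuclideanSpace ℝ (Fin d)) 1)).toReal ^ ((2 : ℝ) / d))

/-- A density matrix `∑ l_n |u_n⟩⟨u_n|` of finite rank on `L²(ℝ^d; ℂ)`: the functions
`u_n ∈ C_c^1(ℝ^d; ℂ)` are orthonormal and the occupation numbers `l_n` lie in `[0, 1]`. -/
structure IsDensityMatrix {d N : ℕ} (l : Fin N → ℝ) (u : Fin N → (Fin d → ℝ) → ℂ) : Prop where
  nonneg : ∀ n, 0 ≤ l n
  le_one : ∀ n, l n ≤ 1
  smooth : ∀ n, ContDiff ℝ 1 (u n)
  supp : ∀ n, HasCompactSupport (u n)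
  orth : ∀ n n', ∫ x, (starRingEnd ℂ) (u n x) * u n' x = if n = n' then 1 else 0

/-- The density `ρ = ∑ l_n |u_n|²`. -/
noncomputable def density {d N : ℕ} (l : Fin N → ℝ) (u : Fin N → (Fin d → ℝ) → ℂ)
    (x : Fin d → ℝ) : ℝ :=
  ∑ n, l n * ‖u n x‖ ^ 2

/-- The kinetic energy `∑ l_n ∫ |∇ u_n|²`. -/
noncomputable def kinetic {d N : ℕ} (l : Fin N → ℝ) (u : Fin N → (Fin d → ℝ) → ℂ) : ℝ :=
  ∑ n, l n * ∫ x, ∑ k, ‖pder k (u n) x‖ ^ 2

/-- The functions `v_1, …, v_M` on `ℝ^(m+1)` represent the slices of the density matrix: for every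
`t` the kernel `∑ l_n u_n(t, y) conj u_n(t, y')` on `ℝ^m` is `∑ v_j(t, y) conj v_j(t, y')`. -/
def RepresentsSlices {m N M : ℕ} (l : Fin N → ℝ) (u : Fin N → (Fin (m + 1) → ℝ) → ℂ)
    (v : Fin M → (Fin (m + 1) → ℝ) → ℂ) : Prop :=
  ∀ x x' : Fin (m + 1) → ℝ, x 0 = x' 0 →
    ∑ j, v j x * (starRingEnd ℂ) (v j x') = ∑ n, l n * (u n x * (starRingEnd ℂ) (u n x'))

/-- `v` is measurable and has at almost every point the derivative `w` in the direction of the
first coordinate, and `w` is in `L²`. -/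
structure HasFirstDeriv {m : ℕ} (v w : (Fin (m + 1) → ℝ) → ℂ) : Prop where
  meas : AEStronglyMeasurable v volume
  memLp : MemLp w 2 volume
  deriv : ∀ᵐ x, HasDerivAt (fun t : ℝ => v (Function.update x 0 t)) (w x) (x 0)

/-- The kinetic energy inequality in dimension `d = m + 1` with the semiclassical constant
(`η = 1`), and with all constants down to `(3/4) ^ (1/d) K_d^cl` (`η = 0`): the error is the
energy in the first direction of any family representing the slices of the density matrix. -/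
theorem result (m N M : ℕ) (l : Fin N → ℝ) (u : Fin N → (Fin (m + 1) → ℝ) → ℂ)
    (hu : IsDensityMatrix l u) (v w : Fin M → (Fin (m + 1) → ℝ) → ℂ)
    (hv : ∀ j, HasFirstDeriv (v j) (w j)) (hs : RepresentsSlices l u v)
    (η : ℝ) (h0 : 0 ≤ η) (h1 : η ≤ 1) :
    ((3 + η) / 4) ^ (1 / ((m : ℝ) + 1)) * Kcl (m + 1) *
        ∫ x, density l u x ^ (1 + 2 / ((m : ℝ) + 1)) ≤
      kinetic l u + 3 * η * ∑ j, ∫ x, ‖w j x‖ ^ 2 := by
  have h := Pool.Agent.Q235.LT.cplx_occ l hu.nonneg hu.le_one u hu.smooth hu.supp hu.orth v w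
    (fun j => (hv j).meas) (fun j => (hv j).memLp) (fun j => (hv j).deriv) hs h0 h1
  have e1 : ((m + 1 : ℕ) : ℝ) = (m : ℝ) + 1 := by push_cast; ring
  have hI : ∀ n k, Integrable (fun x => ‖pder k (u n) x‖ ^ 2) := by
    intro n k
    have h2 : Continuous (fun x => pder k (u n) x) :=
      ((hu.smooth n).continuous_fderiv (by norm_num)).clm_apply continuous_const
    have h3 : HasCompactSupport (fun x => pder k (u n) x) :=
      ((hu.supp n).fderiv (𝕜 := ℝ)).comp_left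
        (g := fun L : (Fin (m + 1) → ℝ) →L[ℝ] ℂ => L (Pi.single k 1)) rfl
    exact (h2.memLp_of_hasCompactSupport h3).integrable_norm_pow two_ne_zero
  have e2 : ∫ x, ∑ k, ∑ i, l i * ‖fderiv ℝ (u i) x (Pi.single k 1)‖ ^ 2 = kinetic l u := by
    have h4 : kinetic l u = ∑ n, ∫ x, l n * ∑ k, ‖pder k (u n) x‖ ^ 2 :=
      Finset.sum_congr rfl fun n _ => (integral_const_mul _ _).symm
    rw [h4, ← integral_finsetSum _ fun n _ =>
      (integrable_finsetSum _ fun k _ => hI n k).const_mul (l n)]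
    refine integral_congr_ae (Filter.Eventually.of_forall fun x => ?_)
    show ∑ k, ∑ i, l i * ‖fderiv ℝ (u i) x (Pi.single k 1)‖ ^ 2 =
      ∑ n, l n * ∑ k, ‖pder k (u n) x‖ ^ 2
    rw [Finset.sum_comm]
    exact Finset.sum_congr rfl fun n _ => (Finset.mul_sum _ _ _).symm
  rw [e1, e2] at h
  exact h

end Pool.Agent.Results.MP_cfe56d_mp.GradientError
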