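import Pool.Agent.Q93.LT.Cx

/-!
# The optimisers of the sharp kinetic inequality in dimension one (MP_cfe56d_mp)

In dimension one `K₁ = K₁^(1) = π² / 4`.  For orthogonal functions `u_1, …, u_N` of norm at most one
(for example orthonormal ones, or `√λ_n u_n` with orthonormal `u_n` and occupation numbers
`λ_n ≤ 1`) the inequality holds with a remainder, and it is an equality only if all but one of the
functions vanish and the remaining one is the soliton `√(b / (π cosh (b (x - a))))` up to a phase.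
-/

set_option autoImplicit false

open MeasureTheory Set Filter Topology Real

namespace Pool.Agent.Results.MP_cfe56d_mp.OptimisersOneDim

/-- `u` is the continuous representative of a function of the Sobolev space `H¹(ℝ)` with weak
derivative `g`. -/
structure IsSobolev (u g : ℝ → ℂ) : Prop where
  memLp : MemLp u 2
  memLp_deriv : MemLp g 2
  integral_deriv : ∀ a b, u b - u a = ∫ x in a..b, g x

/-- A system of pairwise orthogonal functions of `H¹(ℝ)` of norm at most one, with the weak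
derivatives `g`. -/
structure IsSystem {N : ℕ} (u g : Fin N → ℝ → ℂ) : Prop where
  sobolev : ∀ n, IsSobolev (u n) (g n)
  norm_le : ∀ n, ∫ x, ‖u n x‖ ^ 2 ≤ 1
  orthogonal : ∀ n m, n ≠ m → ∫ x, star (u n x) * u m x = 0

/-- The density `ρ = ∑ |u_n|²`. -/
noncomputable def density {N : ℕ} (u : Fin N → ℝ → ℂ) (x : ℝ) : ℝ := ∑ n, ‖u n x‖ ^ 2

/-- The kinetic energy. -/
noncomputable def kinetic {N : ℕ} (g : Fin N → ℝ → ℂ) : ℝ := ∑ n, ∫ x, ‖g n x‖ ^ 2

/-- The components of the vector `Γ(x) u(x) = ∫_{y ≤ x} Re ⟨u(y), u(x)⟩ u(y) dy`. -/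
noncomputable def half {N : ℕ} (u : Fin N → ℝ → ℂ) (x : ℝ) (n : Fin N) : ℂ :=
  ∫ y in Iic x, (((∑ m, star (u m y) * u m x).re : ℝ) : ℂ) * u n y

/-- The remainder `|u|² |Γu|² - ⟨u, Γu⟩²` at the point `x`, with `u = u(x)` and `Γ = Γ(x)`. -/
noncomputable def remainder {N : ℕ} (u : Fin N → ℝ → ℂ) (x : ℝ) : ℝ :=
  density u x * (∑ n, ‖half u x n‖ ^ 2) - (∑ n, (star (half u x n) * u n x).re) ^ 2

/-- The soliton with `|v|² = b / (π cosh (b (x - a)))`. -/
def IsSoliton (v : ℝ → ℂ) : Prop :=
  ∃ (z : ℂ) (b a : ℝ), ‖z‖ = 1 ∧ 0 < b ∧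
    ∀ x, v x = z * ((√(b / (π * cosh (b * (x - a)))) : ℝ) : ℂ)

open Pool.Agent.Q93.LT Pool.Helper490.Calib

lemma gram {N : ℕ} {u g : Fin N → ℝ → ℂ} (h : IsSystem u g) : ∃ l : Fin N → ℝ, (∀ n, l n ≤ 1) ∧
    ∀ n m, ∫ x, star (u n x) * u m x = if n = m then (l n : ℂ) else 0 := by
  refine ⟨fun n => ∫ x, ‖u n x‖ ^ 2, h.norm_le, fun n m => ?_⟩
  by_cases hnm : n = m
  · subst hnm
    rw [if_pos rfl, ← integral_complex_ofReal]
    refine integral_congr_ae (Eventually.of_forall fun x => ?_)
    simp only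
    rw [mul_comm, ← Complex.normSq_eq_norm_sq]
    exact Complex.mul_conj _
  · rw [if_neg hnm]
    exact h.orthogonal n m hnm

lemma hsys {N : ℕ} {u g : Fin N → ℝ → ℂ} (h : IsSystem u g) :
    HSys (fun x => realify fun n => u n x) (fun x => realify fun n => g n x) := by
  obtain ⟨l, hl, ho⟩ := gram h
  exact hsys_of_complex u g l hl (fun n => (h.sobolev n).memLp)
    (fun n => (h.sobolev n).memLp_deriv) (fun n => (h.sobolev n).integral_deriv) ho

lemma kinetic_eq {N : ℕ} {u g : Fin N → ℝ → ℂ} (h : IsSystem u g) :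
    ∫ x, ‖realify fun n => g n x‖ ^ 2 = kinetic g := by
  simp only [realify_norm]
  rw [integral_finsetSum _ fun n _ => (h.sobolev n).memLp_deriv.integrable_norm_pow (by norm_num)]
  rfl

lemma density_eq {N : ℕ} (u : Fin N → ℝ → ℂ) (x : ℝ) :
    ‖realify fun n => u n x‖ ^ 2 = density u x := realify_norm _

lemma rem_eq {N : ℕ} {u g : Fin N → ℝ → ℂ} (h : IsSystem u g) (x : ℝ) :
    Rem (fun x => realify fun n => u n x) x = remainder u x :=
  rem_complex u g (fun n => (h.sobolev n).memLp.1) (hsys h) x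

lemma integral_norm_soliton {v : ℝ → ℂ} (hv : IsSoliton v) : ∃ g, IsSobolev v g := by
  obtain ⟨z, b, a, hz, hb, hv⟩ := hv
  have hbp : 0 < b / π := by positivity
  have hv1 : v = fun x => z * ((√(b / π) * Pool.Helper490.Sech.w (b * (x - a)) : ℝ) : ℂ) := by
    funext x
    rw [hv, FIN177.sqrt_eq hb]
  have hderiv : ∀ x, HasDerivAt v
      (z * ((√(b / π) * (Pool.Helper490.Sech.w' (b * (x - a)) * b) : ℝ) : ℂ)) x := by
    intro x
    rw [hv1]
    have h2 : HasDerivAt (fun x : ℝ => b * (x - a)) b x := by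
      have := ((hasDerivAt_id x).sub_const a).const_mul b
      rwa [mul_one] at this
    have h3 : HasDerivAt (Pool.Helper490.Sech.w ∘ fun x : ℝ => b * (x - a))
        (Pool.Helper490.Sech.w' (b * (x - a)) * b) x :=
      HasDerivAt.comp x (Pool.Helper490.Sech.w_deriv (b * (x - a))) h2
    exact ((h3.const_mul (√(b / π))).ofReal_comp).const_mul z
  have hgc : Continuous fun x =>
      z * ((√(b / π) * (Pool.Helper490.Sech.w' (b * (x - a)) * b) : ℝ) : ℂ) := by
    have := Pool.Helper490.Sech.w'_cont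
    fun_prop
  have hg2 : MemLp (fun x =>
      z * ((√(b / π) * (Pool.Helper490.Sech.w' (b * (x - a)) * b) : ℝ) : ℂ)) 2 := by
    rw [memLp_two_iff_integrable_sq_norm hgc.aestronglyMeasurable]
    have e : ∀ x, ‖z * ((√(b / π) * (Pool.Helper490.Sech.w' (b * (x - a)) * b) : ℝ) : ℂ)‖ ^ 2 =
        b / π * b ^ 2 * Pool.Helper490.Sech.w' (b * (x - a)) ^ 2 := by
      intro x
      rw [norm_mul, hz, one_mul, Complex.norm_real, Real.norm_eq_abs, sq_abs, mul_pow, mul_pow,
        Real.sq_sqrt hbp.le]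
      ring
    simp only [e]
    exact (FIN177.int_subst Pool.Helper490.Sech.int_w'_sq hb a).const_mul _
  have hftc : ∀ s t, v t - v s = ∫ x in s..t,
      z * ((√(b / π) * (Pool.Helper490.Sech.w' (b * (x - a)) * b) : ℝ) : ℂ) := fun s t =>
    (intervalIntegral.integral_eq_sub_of_hasDerivAt (fun x _ => hderiv x)
      (hgc.intervalIntegrable _ _)).symm
  exact ⟨_, (fin z b a hz hb v _ hv hg2 hftc).1, hg2, hftc⟩

/-- The two integrals of a soliton. -/
lemma soliton_integrals {v g : ℝ → ℂ} (hv : IsSoliton v) (hg : IsSobolev v g) :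
    ∫ x, ‖v x‖ ^ 2 = 1 ∧ ∫ x, ‖g x‖ ^ 2 = π ^ 2 / 4 * ∫ x, (‖v x‖ ^ 2) ^ 3 := by
  obtain ⟨z, b, a, hz, hb, hv⟩ := hv
  obtain ⟨-, h1, h2, h3⟩ := fin z b a hz hb v g hv hg.memLp_deriv hg.integral_deriv
  refine ⟨h1, ?_⟩
  rw [h2, h3]
  have := pi_pos
  field_simp
  ring

/-- The characterisation of equality. -/
lemma equality_iff {N : ℕ} {u g : Fin N → ℝ → ℂ} (h : IsSystem u g) :
    kinetic g = π ^ 2 / 4 * ∫ x, density u x ^ 3 ↔
      (∀ n x, u n x = 0) ∨ ∃ n, IsSoliton (u n) ∧ ∀ m, m ≠ n → ∀ x, u m x = 0 := by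
  have hH := hsys h
  have hzero : ∀ n, (∀ x, u n x = 0) → ∫ x, ‖g n x‖ ^ 2 = 0 := by
    intro n hn
    have h1 : ∀ a b, ∫ x in a..b, g n x = 0 := fun a b => by
      rw [← (h.sobolev n).integral_deriv, hn, hn, sub_zero]
    have h2 := ae_zero_of_integral (h.sobolev n).memLp_deriv h1
    rw [integral_congr_ae (g := fun _ => (0:ℝ)) (h2.mono fun x hx => by simp [hx])]
    simp
  constructor
  · intro heq
    by_cases h0 : ∀ n x, u n x = 0
    · exact Or.inl h0
    refine Or.inr ?_
    push_neg at h0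
    obtain ⟨n₀, x₀, hx₀⟩ := h0
    have h1 : ∃ x, (fun x => realify fun n => u n x) x ≠ 0 := by
      refine ⟨x₀, fun hc => hx₀ ?_⟩
      have h2 : density u x₀ = 0 := by
        rw [← density_eq]
        simp only at hc
        rw [hc]; simp
      have h3 := (Finset.sum_eq_zero_iff_of_nonneg fun n _ => sq_nonneg ‖u n x₀‖).1 h2 n₀
        (Finset.mem_univ _)
      simpa using h3
    have heq' : ∫ x, ‖realify fun n => g n x‖ ^ 2 =
        π ^ 2 / 4 * ∫ x, (‖realify fun n => u n x‖ ^ 2) ^ 3 := by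
      rw [kinetic_eq h, heq]
      simp only [density_eq]
    obtain ⟨e, b, a, he, hb, hs⟩ := hH.soliton heq' h1
    set c : Fin N → ℂ := fun n => ⟨e (Sum.inl n), e (Sum.inr n)⟩ with hc
    have hu : ∀ n x, u n x = c n * ((√(b / (π * cosh (b * (x - a)))) : ℝ) : ℂ) := by
      intro n x
      have h2 := hs x
      apply Complex.ext
      · have h3 := congrArg (fun v : EuclideanSpace ℝ (Fin N ⊕ Fin N) => v (Sum.inl n)) h2
        simp only [realify] at h3
        simp only [Complex.mul_re, Complex.ofReal_re, Complex.ofReal_im, mul_zero, sub_zero, hc]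
        simpa [mul_comm] using h3
      · have h3 := congrArg (fun v : EuclideanSpace ℝ (Fin N ⊕ Fin N) => v (Sum.inr n)) h2
        simp only [realify] at h3
        simp only [Complex.mul_im, Complex.ofReal_re, Complex.ofReal_im, mul_zero, zero_add, hc]
        simpa [mul_comm] using h3
    have hcs : ∑ n, ‖c n‖ ^ 2 = 1 := by
      have h2 : ‖e‖ ^ 2 = ∑ n, ‖c n‖ ^ 2 := by
        rw [EuclideanSpace.norm_sq_eq, Fintype.sum_sum_type, ← Finset.sum_add_distrib]
        refine Finset.sum_congr rfl fun n _ => ?_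
        rw [sqn]
        simp [hc]
      rw [← h2, he, one_pow]
    -- the profile
    set s : ℝ → ℂ := fun x => 1 * ((√(b / (π * cosh (b * (x - a)))) : ℝ) : ℂ) with hsdef
    have hsS : IsSoliton s := ⟨1, b, a, norm_one, hb, fun x => rfl⟩
    obtain ⟨gs, hgs⟩ := integral_norm_soliton hsS
    have hs1 := (soliton_integrals hsS hgs).1
    have hus : ∀ n x, u n x = c n * s x := fun n x => by rw [hu, hsdef]; simp
    have hij : ∀ n m, ∫ x, star (u n x) * u m x = star (c n) * c m := by
      intro n m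
      have e1 : ∀ x, star (u n x) * u m x = (star (c n) * c m) * ((‖s x‖ ^ 2 : ℝ) : ℂ) := by
        intro x
        rw [hus, hus, star_mul', ← Complex.normSq_eq_norm_sq]
        have := Complex.mul_conj (s x)
        rw [← this]
        simp only [Complex.star_def]
        ring
      simp only [e1]
      rw [integral_const_mul, integral_complex_ofReal, hs1]
      simp
    have hex : ∃ n, c n ≠ 0 := by
      by_contra hne
      push_neg at hne
      simp [hne] at hcs
    obtain ⟨n, hn⟩ := hex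
    have hoth : ∀ m, m ≠ n → c m = 0 := by
      intro m hm
      have h2 := hij n m
      rw [h.orthogonal n m (Ne.symm hm)] at h2
      rcases mul_eq_zero.1 h2.symm with h3 | h3
      · exact absurd (star_eq_zero.1 h3) hn
      · exact h3
    have hn1 : ‖c n‖ = 1 := by
      rw [Finset.sum_eq_single n (fun m _ hm => by rw [hoth m hm]; simp) (by simp)] at hcs
      have := norm_nonneg (c n)
      nlinarith
    exact ⟨n, ⟨c n, b, a, hn1, hb, hu n⟩, fun m hm x => by rw [hu, hoth m hm, zero_mul]⟩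
  · rintro (h0 | ⟨n, hn, hoth⟩)
    · have h1 : ∀ x, density u x = 0 := fun x => by simp [density, h0]
      rw [kinetic, Finset.sum_eq_zero fun n _ => hzero n (h0 n)]
      simp [h1]
    · have h1 : ∀ x, density u x = ‖u n x‖ ^ 2 := by
        intro x
        rw [density, Finset.sum_eq_single n (fun m _ hm => by rw [hoth m hm x]; simp) (by simp)]
      have h2 : kinetic g = ∫ x, ‖g n x‖ ^ 2 := by
        rw [kinetic, Finset.sum_eq_single n (fun m _ hm => hzero m (hoth m hm)) (by simp)]
      rw [h2, (soliton_integrals hn (h.sobolev n)).2]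
      simp only [h1]

/-- **The optimisers of the sharp kinetic inequality in dimension one.**

* (1) With `ρ = ∑ |u_n|²`, `Γ(x) v = ∫_{y ≤ x} Re ⟨u(y), v⟩ u(y) dy` and
  `R = |u|² |Γu|² - ⟨u, Γu⟩² ≥ 0`, all systems satisfy
  `∑ ∫ |u_n'|² ≥ (π² / 4) ∫ ρ³ + (π⁴ / 32) ∫ ρ R`.
* (2) `∑ ∫ |u_n'|² = (π² / 4) ∫ ρ³` if and only if all functions vanish, or all but one vanish and
  the remaining one is a soliton `z √(b / (π cosh (b (x - a))))`, `|z| = 1`, `b > 0`.
* (3) For two or more orthonormal functions the inequality is strict; one normalised function is an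
  optimiser if and only if it is a soliton.
* (4) Solitons are normalised functions of `H¹(ℝ)`. -/
theorem result :
    (∀ (N : ℕ) (u g : Fin N → ℝ → ℂ), IsSystem u g →
      Integrable (fun x => density u x ^ 3) ∧ (∀ x, 0 ≤ remainder u x) ∧
      Integrable (fun x => density u x * remainder u x) ∧
      π ^ 2 / 4 * (∫ x, density u x ^ 3) + π ^ 4 / 32 * (∫ x, density u x * remainder u x) ≤
        kinetic g) ∧
    (∀ (N : ℕ) (u g : Fin N → ℝ → ℂ), IsSystem u g →
      (kinetic g = π ^ 2 / 4 * ∫ x, density u x ^ 3 ↔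
        (∀ n x, u n x = 0) ∨ ∃ n, IsSoliton (u n) ∧ ∀ m, m ≠ n → ∀ x, u m x = 0)) ∧
    (∀ (N : ℕ) (u g : Fin N → ℝ → ℂ), 1 ≤ N → (∀ n, IsSobolev (u n) (g n)) →
      (∀ n m, ∫ x, star (u n x) * u m x = if n = m then (1 : ℂ) else 0) →
      (2 ≤ N → π ^ 2 / 4 * (∫ x, density u x ^ 3) < kinetic g) ∧
      (kinetic g = π ^ 2 / 4 * (∫ x, density u x ^ 3) ↔ N = 1 ∧ ∀ n, IsSoliton (u n))) ∧
    (∀ v : ℝ → ℂ, IsSoliton v → ∃ g, IsSobolev v g ∧ ∫ x, ‖v x‖ ^ 2 = 1) := by
  have part1 : ∀ (N : ℕ) (u g : Fin N → ℝ → ℂ), IsSystem u g →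
      Integrable (fun x => density u x ^ 3) ∧ (∀ x, 0 ≤ remainder u x) ∧
      Integrable (fun x => density u x * remainder u x) ∧
      π ^ 2 / 4 * (∫ x, density u x ^ 3) + π ^ 4 / 32 * (∫ x, density u x * remainder u x) ≤
        kinetic g := by
    intro N u g h
    have hH := hsys h
    have e1 : ∀ x, (‖realify fun n => u n x‖ ^ 2) ^ 3 = density u x ^ 3 := fun x => by
      rw [density_eq]
    have e2 : ∀ x, ‖realify fun n => u n x‖ ^ 2 * Rem (fun x => realify fun n => u n x) x =
        density u x * remainder u x := fun x => by rw [density_eq, rem_eq h]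
    have h1 := hH.rho3_int
    have h2 := hH.rem_int
    have h3 := hH.sharp_rem ker
    simp only [e1] at h1 h3
    simp only [e2] at h2 h3
    rw [kinetic_eq h] at h3
    exact ⟨h1, fun x => by rw [← rem_eq h]; exact hH.Rem_nonneg x, h2, h3⟩
  have ortho : ∀ (N : ℕ) (u g : Fin N → ℝ → ℂ), (∀ n, IsSobolev (u n) (g n)) →
      (∀ n m, ∫ x, star (u n x) * u m x = if n = m then (1 : ℂ) else 0) →
      IsSystem u g ∧ ∀ n, ∃ x, u n x ≠ 0 := by
    intro N u g hs ho
    have hn : ∀ n, ∫ x, ‖u n x‖ ^ 2 = 1 := by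
      intro n
      have h1 := ho n n
      rw [if_pos rfl] at h1
      have h2 : ((∫ x, ‖u n x‖ ^ 2 : ℝ) : ℂ) = 1 := by
        rw [← h1, ← integral_complex_ofReal]
        refine integral_congr_ae (Eventually.of_forall fun x => ?_)
        simp only
        rw [mul_comm (star _), ← Complex.normSq_eq_norm_sq]
        exact (Complex.mul_conj _).symm
      exact_mod_cast h2
    refine ⟨⟨hs, fun n => (hn n).le, fun n m hnm => by rw [ho n m, if_neg hnm]⟩, fun n => ?_⟩
    by_contra hne
    push_neg at hne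
    have := hn n
    simp [hne] at this
  refine ⟨part1, fun N u g h => equality_iff h, ?_, ?_⟩
  · intro N u g hN hs ho
    obtain ⟨h, hne⟩ := ortho N u g hs ho
    have hiff : kinetic g = π ^ 2 / 4 * (∫ x, density u x ^ 3) ↔ N = 1 ∧ ∀ n, IsSoliton (u n) := by
      rw [equality_iff h]
      constructor
      · rintro (h0 | ⟨n, hn, hoth⟩)
        · obtain ⟨x, hx⟩ := hne ⟨0, hN⟩
          exact absurd (h0 _ x) hx
        · have hall : ∀ m, m = n := by
            intro m
            by_contra hm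
            obtain ⟨x, hx⟩ := hne m
            exact hx (hoth m hm x)
          have hN1 : N = 1 := by
            by_contra hN1
            have h0 := hall ⟨0, by omega⟩
            have h1 := hall ⟨1, by omega⟩
            rw [← h1] at h0
            simp at h0
          exact ⟨hN1, fun m => by rw [hall m]; exact hn⟩
      · rintro ⟨hN1, hall⟩
        subst hN1
        exact Or.inr ⟨0, hall 0, fun m hm => absurd (Subsingleton.elim m 0) hm⟩
    refine ⟨fun hN2 => ?_, hiff⟩
    obtain ⟨-, h1, -, h2⟩ := part1 N u g h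
    have h3 : 0 ≤ ∫ x, density u x * remainder u x := integral_nonneg fun x =>
      mul_nonneg (Finset.sum_nonneg fun n _ => sq_nonneg _) (h1 x)
    have h4 : π ^ 2 / 4 * (∫ x, density u x ^ 3) ≤ kinetic g := by
      have : 0 ≤ π ^ 4 / 32 * ∫ x, density u x * remainder u x := by positivity
      linarith
    refine lt_of_le_of_ne h4 fun hc => ?_
    have := (hiff.1 hc.symm).1
    omega
  · intro v hv
    obtain ⟨g, hg⟩ := integral_norm_soliton hv
    exact ⟨g, hg, (soliton_integrals hv hg).1⟩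

end Pool.Agent.Results.MP_cfe56d_mp.OptimisersOneDim
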